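import Pool.Agent.Y169.CP.Main

/-!
# The Campana-Peternell inequality for quotients of products of hypersurfaces

Let `F i` be a form of degree `d i` in `n i + 1` variables whose zero set in the projective
`n i`-space is a smooth hypersurface, and let `H i` be the cyclic hypersurface `w ^ (d i) = F i` in
the projective `(n i + 1)`-space. Let `X` be a projective manifold which is birational to a quotient
`(H 1 × ... × H r) / G`, where `G` is any group of diagonal automorphisms
`w i ↦ ζ i * w i`, `ζ i ^ (d i) = 1`. Equivalently, the function field `K` of `X` is generated by the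
affine coordinates `x i j / x i 0` of the product of the projective `n i`-spaces and by roots `z j`,
`z j ^ (m j) = ∏ i, (F i (x i) / x i 0 ^ (d i)) ^ (a j i)`, where `m j` divides `a j i * d i`.

The theorem: the Campana-Peternell inequality holds on `X`. If a multiple `q K_X`, `q ≥ 1`, is the
sum of a divisor `A` and of a pseudo-effective divisor, then `κ (X) ≥ κ (A)`.

A divisor `A` on `X` (or on any projective manifold birational to `X`) is given by its
multiplicities `A P` along the prime divisors `P` over `X`, which are the divisorial places `P` of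
`K`; the theorem holds for all integral functions `A` of `P`. Sections of `m K_X - j A + H` are
functions of `N = dim X` rational vector fields, with a condition at all divisorial places of `K`, so
that they are the sections on every smooth projective model of `K`. A `ℚ`-divisor is replaced by a
multiple, this is the reason for the factor `q`.

The Kodaira dimension `κ (X)` takes all kinds of values between `-∞` and `dim X` for these
manifolds; it is `-∞` if and only if `X` is uniruled, and this may happen even if all the
`H i` have ample canonical classes. In the proof the Kodaira and the numerical dimension of `X` are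
equal (`Pool.Agent.Y169.CH.main`), and products of sections of multiples of `A` with sections of
`j (q K_X - A) + H` are counted (`Pool.Agent.Y169.CP.cp`).
-/

set_option autoImplicit false

open FF MvPolynomial Pool.Agent.W602.GT

namespace Pool.Agent.Results.MP_370cf3_ag.HypersurfaceQuotients

/-- The form `F` has no singular zeros: its partial derivatives have no common zero but `0`. -/
def Smooth {n : ℕ} (F : MvPolynomial (Fin (n + 1)) ℂ) : Prop :=
  ∀ x : Fin (n + 1) → ℂ, x ≠ 0 → ∃ l, eval x (pderiv l F) ≠ 0

/-- The affine coordinates of the product of the projective spaces. -/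
noncomputable def affine {r : ℕ} {n : Fin r → ℕ} {K : Type} [Field K]
    (x : ∀ i, Fin (n i + 1) → K) (b : (i : Fin r) × Fin (n i)) : K :=
  x b.1 b.2.succ / x b.1 0

section sections

variable (N : ℕ) (K : Type) [Field K] [Algebra ℂ K]

/-- `ω` is a section of `m K_X - j A + H`: a rational section of the `m`-th power of the canonical
bundle (`IsPluri`: a function of `N` rational vector fields which is multiplied by `det B ^ m` under
a linear substitution `B`) whose order on the vector fields which are regular at `P` is at least `j`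
times the multiplicity of `A` plus the order of one of the functions in `S`, for all prime divisors
`P` over `X` (all divisorial places `P` of `K`). Here `H` is the divisor which is generated by the
finite set `S` of functions. -/
def IsSection (A : Place ℂ K → ℤ) (S : Finset K) (m j : ℕ)
    (ω : (Fin N → Derivation ℂ K K) → K) : Prop :=
  IsPluri m ω ∧ ∀ P : Place ℂ K, Divisorial N P → ∀ D : Fin N → Derivation ℂ K K,
    (∀ c, DerReg P (D c)) → ω D = 0 ∨ ∃ s ∈ S, s ≠ 0 ∧ j * A P + P.ord s ≤ P.ord (ω D)

/-- `q K_X - A` is pseudo-effective: for some divisor `H` all the divisors `j (q K_X - A) + H`,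
`j ≥ 1`, are effective. -/
def DifferencePseudoeffective (q : ℕ) (A : Place ℂ K → ℤ) : Prop :=
  ∃ S : Finset K, ∀ j : ℕ, 1 ≤ j → ∃ ω : (Fin N → Derivation ℂ K K) → K, ω ≠ 0 ∧
    IsSection N K A S (j * q) j ω

/-- `κ (A) ≥ h`: for some `m > 0` there are sections of `m A`, functions `f b` with
`ord (f b) ≥ - m A`, whose ratios contain `h` algebraically independent functions (for `h = 0`:
there is a nonzero section). -/
def IitakaGe (A : Place ℂ K → ℤ) (h : ℕ) : Prop :=
  ∃ m : ℕ, 0 < m ∧ ∃ f : Fin (h + 1) → K, f 0 ≠ 0 ∧
    (∀ b, ∀ P : Place ℂ K, Divisorial N P → f b = 0 ∨ - (m * A P) ≤ P.ord (f b)) ∧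
    AlgebraicIndependent ℂ fun b : Fin h => f b.succ / f 0

/-- `κ (X) ≥ h`: for some `m > 0` there are sections of `m K_X` whose ratios contain `h`
algebraically independent functions (for `h = 0`: there is a nonzero section). -/
def KodairaGe (h : ℕ) : Prop :=
  ∃ m : ℕ, 0 < m ∧ ∃ ω : Fin (h + 1) → (Fin N → Derivation ℂ K K) → K,
    (∀ b, IsSection N K (fun _ => 0) {1} m 1 (ω b)) ∧
    ∃ D, ω 0 D ≠ 0 ∧ AlgebraicIndependent ℂ (fun b : Fin h => ω b.succ D / ω 0 D)

end sections

/-- **The Campana-Peternell inequality.** Let `X` be a projective manifold birational to an abelian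
cover of the product of the projective `n i`-spaces which is branched along smooth hypersurfaces
`F i = 0` of the factors (that is, to a quotient of the product of the cyclic hypersurfaces
`w ^ (d i) = F i` by a group of diagonal automorphisms), and let `K` be the function field of `X`.
If `q ≥ 1` and `q K_X - A` is pseudo-effective then `κ (X) ≥ κ (A)`. -/
theorem result (r N R : ℕ) (n d : Fin r → ℕ) (hr : 1 ≤ r) (hn : ∀ i, 1 ≤ n i)
    (hd : ∀ i, 1 ≤ d i) (hN : N = ∑ i, n i)
    (F : ∀ i, MvPolynomial (Fin (n i + 1)) ℂ) (hF : ∀ i, (F i).IsHomogeneous (d i))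
    (hs : ∀ i, Smooth (F i)) (m : Fin R → ℕ) (hm : ∀ j, 1 ≤ m j) (a : Fin R → Fin r → ℕ)
    (hdiv : ∀ j i, m j ∣ a j i * d i)
    (K : Type) [Field K] [Algebra ℂ K] (x : ∀ i, Fin (n i + 1) → K) (hx0 : ∀ i, x i 0 ≠ 0)
    (hbas : IsTranscendenceBasis ℂ (affine x)) (z : Fin R → K)
    (hz : ∀ j, z j ^ m j = ∏ i, (aeval (x i) (F i) / x i 0 ^ d i) ^ a j i)
    (hgen : IntermediateField.adjoin ℂ (Set.range (affine x) ∪ Set.range z) = ⊤)
    (q : ℕ) (hq : 1 ≤ q) (A : Place ℂ K → ℤ) (hA : DifferencePseudoeffective N K q A)
    (h : ℕ) (hh : IitakaGe N K A h) : KodairaGe N K h := by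
  classical
  obtain ⟨h1, h2, h3⟩ := Pool.Agent.Y169.CH.main hr hn hN hd hF hs hx0 hbas hm hdiv hz hgen
    (Finset.univ.filter fun i => ∀ v, Pool.Agent.Y169.CH.Adm m a v →
      ∑ s, (((d s : ℚ) - n s - 1) / d s) * v s = 1 → v i = 0) (fun i => by simp)
  have h4 : Pool.Agent.Y169.CH.AKod N K h :=
    Pool.Agent.Y169.CP.cp (fun hps => ⟨_, h3 (h1.1 hps)⟩) hq hA hh
  obtain ⟨M, hM, ω, hω, hD⟩ := h4
  refine ⟨M, hM, ω, fun b => ⟨(hω b).1, fun P hP D hD => ?_⟩, hD⟩
  refine ((hω b).2 P hP D hD).imp id ?_
  rintro ⟨s, hs1, hs0, hle⟩
  refine ⟨s, hs1, hs0, ?_⟩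
  rw [mul_zero, zero_add]
  rwa [Nat.cast_one, one_mul] at hle

end Pool.Agent.Results.MP_370cf3_ag.HypersurfaceQuotients
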