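import Pool.Agent.Y169.CP.Main
import Pool.Agent.Y169.TH.Mak

/-!
# The Campana-Peternell inequality for abelian covers branched along normal crossings

Let `F k`, `k = 0, ..., n`, be forms of degrees `d k` in `n + 1` variables whose zero sets in the
projective `n`-space are smooth hypersurfaces with normal crossings (at every point the gradients
of the forms which vanish there are linearly independent). Let `X` be a projective manifold which is
birational to an abelian cover of the projective space which is branched only along these
hypersurfaces: the function field `K` of `X` is generated by the affine coordinates `x (b + 1) / x 0`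
and by roots `z j`, `z j ^ (m j) = ∏ k, (F k (x) / x 0 ^ (d k)) ^ (a j k)`, where `m j` divides
`∑ k, a j k * d k`. (Covers which are branched along fewer hypersurfaces are included: add general
hyperplanes, with `a j k = 0`.)

The theorem: the Campana-Peternell inequality holds on `X`. If a multiple `q K_X`, `q ≥ 1`, is the
sum of a divisor `A` and of a pseudo-effective divisor, then `κ (X) ≥ κ (A)`.

A divisor `A` on `X` (or on any projective manifold birational to `X`) is given by its
multiplicities `A P` along the prime divisors `P` over `X`, which are the divisorial places `P` of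
`K`; the theorem holds for all integral functions `A` of `P`. Sections of `m K_X - j A + H` are
functions of `n = dim X` rational vector fields, with a condition at all divisorial places of `K`, so
that they are the sections on every smooth projective model of `K`. A `ℚ`-divisor is replaced by a
multiple, this is the reason for the factor `q`.

The covers have quotient singularities, in general not canonical ones, and the canonical class of `X`
is in general not the pullback of the canonical class of the cover; `κ (X)` is the dimension of a
polyhedron and may be any number between `0` and `n`, or `-∞`. In the proof the Kodaira and the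
numerical dimension of `X` are equal (`Pool.Agent.Y169.TH.main`), and products of sections of
multiples of `A` with sections of `j (q K_X - A) + H` are counted (`Pool.Agent.Y169.CP.cp`).
-/

set_option autoImplicit false

open FF MvPolynomial Pool.Agent.W602.GT

namespace Pool.Agent.Results.MP_370cf3_ag.NormalCrossingCovers

/-- The hypersurfaces `F k = 0` have normal crossings: at every point of the projective space the
gradients of the forms `F k` which vanish at this point are linearly independent. -/
def NormalCrossings {n : ℕ} (F : Fin (n + 1) → MvPolynomial (Fin (n + 1)) ℂ) : Prop :=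
  ∀ x : Fin (n + 1) → ℂ, x ≠ 0 → LinearIndependent ℂ
    fun (k : {k // eval x (F k) = 0}) (l : Fin (n + 1)) => eval x (pderiv l (F k.1))

/-- The affine coordinates of the projective space. -/
noncomputable def affine {n : ℕ} {K : Type} [Field K] (x : Fin (n + 1) → K) (b : Fin n) : K :=
  x b.succ / x 0

section sections

variable (N : ℕ) (K : Type) [Field K] [Algebra ℂ K]

/-- `ω` is a section of `m K_X - j A + H`: a rational section of the `m`-th power of the canonical
bundle (`IsPluri`: a function of `N` rational vector fields which is multiplied by `det B ^ m` under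
a linear substitution `B`) whose order on the vector fields which are regular at `P` is at least `j`
times the multiplicity of `A` plus the order of one of the functions in `S`, for all prime divisors
`P` over `X` (all divisorial places `P` of `K`). Here `H` is the divisor which is generated by the
finite set `S` of functions. -/
def IsSection (A : Place ℂ K → ℤ) (S : Finset K) (m j : ℕ)
    (ω : (Fin N → Derivation ℂ K K) → K) : Prop :=
  IsPluri m ω ∧ ∀ P : Place ℂ K, Divisorial N P → ∀ D : Fin N → Derivation ℂ K K,
    (∀ c, DerReg P (D c)) → ω D = 0 ∨ ∃ s ∈ S, s ≠ 0 ∧ j * A P + P.ord s ≤ P.ord (ω D)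

/-- `q K_X - A` is pseudo-effective: for some divisor `H` all the divisors `j (q K_X - A) + H`,
`j ≥ 1`, are effective. -/
def DifferencePseudoeffective (q : ℕ) (A : Place ℂ K → ℤ) : Prop :=
  ∃ S : Finset K, ∀ j : ℕ, 1 ≤ j → ∃ ω : (Fin N → Derivation ℂ K K) → K, ω ≠ 0 ∧
    IsSection N K A S (j * q) j ω

/-- `κ (A) ≥ h`: for some `m > 0` there are sections of `m A`, functions `f b` with
`ord (f b) ≥ - m A`, whose ratios contain `h` algebraically independent functions (for `h = 0`:
there is a nonzero section). -/
def IitakaGe (A : Place ℂ K → ℤ) (h : ℕ) : Prop :=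
  ∃ m : ℕ, 0 < m ∧ ∃ f : Fin (h + 1) → K, f 0 ≠ 0 ∧
    (∀ b, ∀ P : Place ℂ K, Divisorial N P → f b = 0 ∨ - (m * A P) ≤ P.ord (f b)) ∧
    AlgebraicIndependent ℂ fun b : Fin h => f b.succ / f 0

/-- `κ (X) ≥ h`: for some `m > 0` there are sections of `m K_X` whose ratios contain `h`
algebraically independent functions (for `h = 0`: there is a nonzero section). -/
def KodairaGe (h : ℕ) : Prop :=
  ∃ m : ℕ, 0 < m ∧ ∃ ω : Fin (h + 1) → (Fin N → Derivation ℂ K K) → K,
    (∀ b, IsSection N K (fun _ => 0) {1} m 1 (ω b)) ∧
    ∃ D, ω 0 D ≠ 0 ∧ AlgebraicIndependent ℂ (fun b : Fin h => ω b.succ D / ω 0 D)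

end sections

/-- **The Campana-Peternell inequality.** Let `X` be a projective manifold birational to an abelian
cover of the projective `n`-space which is branched along `n + 1` hypersurfaces `F k = 0` with normal
crossings, and let `K` be the function field of `X`. If `q ≥ 1` and `q K_X - A` is pseudo-effective
then `κ (X) ≥ κ (A)`. -/
theorem result (n R : ℕ) (hn : 1 ≤ n) (d : Fin (n + 1) → ℕ) (hd : ∀ k, 1 ≤ d k)
    (F : Fin (n + 1) → MvPolynomial (Fin (n + 1)) ℂ) (hF : ∀ k, (F k).IsHomogeneous (d k))
    (hs : NormalCrossings F) (m : Fin R → ℕ) (hm : ∀ j, 1 ≤ m j) (a : Fin R → Fin (n + 1) → ℕ)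
    (hdiv : ∀ j, m j ∣ ∑ k, a j k * d k)
    (K : Type) [Field K] [Algebra ℂ K] (x : Fin (n + 1) → K) (hx0 : x 0 ≠ 0)
    (hbas : IsTranscendenceBasis ℂ (affine x)) (z : Fin R → K)
    (hz : ∀ j, z j ^ m j = ∏ k, (aeval x (F k) / x 0 ^ d k) ^ a j k)
    (hgen : IntermediateField.adjoin ℂ (Set.range (affine x) ∪ Set.range z) = ⊤)
    (q : ℕ) (hq : 1 ≤ q) (A : Place ℂ K → ℤ) (hA : DifferencePseudoeffective n K q A)
    (h : ℕ) (hh : IitakaGe n K A h) : KodairaGe n K h := by
  obtain ⟨e, rfl⟩ : ∃ e, n = e + 1 := ⟨n - 1, by omega⟩
  obtain ⟨h1, h2, h3⟩ := Pool.Agent.Y169.TH.main hx0 hbas hd hF hs hm hz hdiv hgen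
  have h4 : Pool.Agent.Y169.CH.AKod (e + 1) K h :=
    Pool.Agent.Y169.CP.cp (fun hps => ⟨_, h3 (h1.1 hps)⟩) hq hA hh
  obtain ⟨M, hM, ω, hω, hD⟩ := h4
  refine ⟨M, hM, ω, fun b => ⟨(hω b).1, fun P hP D hD => ?_⟩, hD⟩
  refine ((hω b).2 P hP D hD).imp id ?_
  rintro ⟨s, hs1, hs0, hle⟩
  refine ⟨s, hs1, hs0, ?_⟩
  rw [mul_zero, zero_add]
  rwa [Nat.cast_one, one_mul] at hle

end Pool.Agent.Results.MP_370cf3_ag.NormalCrossingCovers
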