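import Pool.Agent.Y191.LcRam
import Pool.Agent.Q298.EF.LinOne

/-!
# The Campana-Peternell inequality for pairs over the image of a powerful linear system

Let `(X, Δ)` be a projective pair: `X` is normal, for instance a manifold, `Δ` is an effective
`ℚ`-divisor, for instance `0`, and let `|V|` be a linear system on `X` without fixed components, of
dimension `n = d + k`, whose rational map `X ⇢ ℙⁿ` has an image `Y` of dimension `d ≥ 1`; `Y` may be
any nondegenerate variety of dimension `d`, for instance rational. Suppose: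

* (the members) `D i` (`i < q`) are finitely many members of `|V|`, in arbitrary position, which span
  `V`, and `V` is not the direct sum of two nonzero subspaces such that each `D i` belongs to one of
  them; at every prime divisor `P` of `X` which is a component of some `D i`, some `D i'` has
  multiplicity at least `σ (1 - Δ_P)`, where `2 σ > R (k + 1) (k + 2)` with `R = n + 2`, or
  `R = n + 1` if there are at least `n + 3` different members;
* (the fibres) there is a correspondence between `X` and a relative product of projective spaces: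
  a variety `X'` with a generically finite map `X' ⇢ X` (any finite extension `K'` of the function
  field `K`, ramified anywhere) and a generically finite map over `Y` of `X'` to
  `Y' × P^{r_1} × ... × P^{r_c}`, `r_j ≥ 1`, `Y'` finite over `Y`, and in each `P^{r_j}` there are
  any hyperplanes `A j i = 0` which move with the point of `Y'`, with weights `w j i` in `[0, 1]`
  such that the arrangement is log canonical: the sum of the weights of hyperplanes with a common
  point is at most the codimension of their intersection. If `Q` is a place of `K'` over a prime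
  divisor `P` of `X` which dominates `Y`, with ramification index `ε`, and `e j i` are the
  multiplicities of the hyperplanes at `Q`, not all zero, then `ε (1 - Δ_P)` is at most
  `∑ (mx_j - ∑ w j i e j i)`, where `mx_j` is the greatest sum of `r_j + 1` of the `e j i` whose
  hyperplanes have no common point (`ε (1 - Δ_P) ≤ 1`, if all `e j i` are zero); and if `Q` is a place
  of `K'` over a prime divisor of `P^{r_1} × ... × P^{r_c}` over `Y`, with ramification index `ρ`, and
  with ramification index `ε` over the place `P` of `K`, then `ρ - ε α ≤ ∑ w j i e j i`, where `α` is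
  the log discrepancy of `(X, Δ)` along `P` (it is `1 - Δ_P` if `P` is a prime divisor of `X`).

There is no condition at the divisors of `X` which do not dominate `Y`, except for the multiplicities
of the linear system.

Then the Campana-Peternell inequality holds on `X`: if `K_X + Δ` is the sum of an effective
`ℚ`-divisor `D` and a pseudo-effective `ℚ`-divisor, then `κ(K_X + Δ) ≥ κ(D)`. Here `D` is any
effective `ℚ`-divisor on `X` and `κ(K_X + Δ)` may be any number between `d` and `dim X`. (If there
is such a `D` then `∑ i, w j i ≥ r_j + 1` for all `j`, and `κ(K_X + Δ)` is `d` plus the sum of the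
`r_j` with `∑ i, w j i > r_j + 1`.)

For instance `Δ = 0`, `X` is a manifold and the generic fibre of `X` over `Y` is any product of cyclic
covers of the line, or a cover of a projective space which is ramified over an arrangement, or a
quotient by a finite group of a product of such covers with canonical singularities.

The language and the definitions of `Pool.Agent.Y172` are used: `X` is given by the homogeneous
coordinates `y` of its generic point, with values in the function field `K` of `X`; the prime divisors
of `X` are places `P` of `K`, `P.ord` is the order along `P`. The linear system is given by the finite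
dimensional space `V` of rational functions: if `a` is the minimum of the orders at `P` of the members
of `V` then the multiplicity of `P` in the divisor of the system which is given by `f ∈ V` is
`P.ord f - a`.

Proof: by the Rado-Horn theorem the weight vector of a log canonical arrangement, multiplied by a
positive integer, is a sum of indicator vectors of bases; the products of determinants of logarithmic
derivatives of the linear forms along the fibres of `X'` are pluricanonical forms along the fibres
(`Pool.Agent.Y191.lc_low`), with poles at most along the horizontal part of `Δ`; their norms to `K`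
are multiplied with generalised Wronskians of the linear system, with poles at most along the vertical
part of `Δ` (`Pool.Agent.Q298.EF.lin_one`). The upper bound for `κ(D)` is `Pool.Agent.Y191.lc_cp`.
-/

set_option autoImplicit false

open FF Pool.Agent.W602.GT Pool.Agent.Y172 Pool.Agent.Y191

namespace Pool.Agent.Results.MP_370cf3_ag.PowerfulLinearSystems

section

variable {K : Type} [Field K] [Algebra ℂ K] {N : ℕ}

/-- `(X, Δ)` is a projective pair of dimension `n`: `X` is normal, with generic point `y`, and `Δ` is
an effective `ℚ`-divisor. -/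
def IsPair (y : Fin (N + 1) → K) (n : ℕ) (Δ : Place ℂ K → ℚ) : Prop :=
  NormalModel y ∧ Algebra.trdeg ℂ K = n ∧ Effective y Δ

/-- The function field of the image of the rational map which is given by the linear system `V`: the
field generated by the quotients of the members. -/
noncomputable def ImageField (V : Submodule ℂ K) : IntermediateField ℂ K :=
  IntermediateField.adjoin ℂ {y : K | ∃ f ∈ V, ∃ g ∈ V, y = f / g}

/-- `V` is the direct sum of two nonzero subspaces such that each `φ i` belongs to one of them. -/
def Splits {q : ℕ} (V : Submodule ℂ K) (φ : Fin q → K) : Prop :=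
  ∃ V1 V2 : Submodule ℂ K, V1 ≠ ⊥ ∧ V2 ≠ ⊥ ∧ Disjoint V1 V2 ∧ V1 ⊔ V2 = V ∧
    ∀ i, φ i ∈ V1 ∨ φ i ∈ V2

/-- There are `r` members `φ i` of which no two are proportional. -/
def Different (r : ℕ) {q : ℕ} (φ : Fin q → K) : Prop :=
  ∃ τ : Fin r → Fin q, ∀ i j, i ≠ j → ∀ t : ℂ, φ (τ i) ≠ t • φ (τ j)

/-- The condition on the multiplicities: if the prime divisor `P` of `X` is a component of one of the
divisors `D i` (the order of `φ i` at `P` is not the minimum `a` of the orders of the members of
`V`), then some `D i` has multiplicity at least `σ (1 - Δ_P)` at `P`. -/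
def Multiplicities (y : Fin (N + 1) → K) (Δ : Place ℂ K → ℚ) {q : ℕ} (V : Submodule ℂ K)
    (φ : Fin q → K) (σ : ℚ) : Prop :=
  ∀ P, IsPrimeDivisor y P → ∀ a : ℤ, (∀ f ∈ V, f = 0 ∨ a ≤ P.ord f) →
    (∃ f ∈ V, f ≠ 0 ∧ P.ord f = a) → (∃ i, P.ord (φ i) ≠ a) →
    ∃ i, σ * (1 - Δ P) ≤ ((P.ord (φ i) - a : ℤ) : ℚ)

/-- There is a finite extension `K'` of `K`, and the `u ⟨j, k⟩` are the affine coordinates of a
generically finite map, over the variety with the function field `L`, of a variety with the function
field `K'` to a product of projective spaces of dimensions `r j ≥ 1`; `A j i` are the coefficients of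
hyperplanes, algebraic over `L`, with weights `w j i` in `[0, 1]` such that the arrangement is log
canonical (`LcArr`). The pull back of `K_X + Δ` to `K'` is compared with the pull back of the
canonical divisor of the relative product plus `∑ w j i (A j i = 0)` at the places over the prime
divisors of `X` which are trivial on `L` (`LcHor`) and at the places over the prime divisors of the
product (`Cor`). -/
def Fibres (y : Fin (N + 1) → K) (n : ℕ) (Δ : Place ℂ K → ℚ) (L : IntermediateField ℂ K) {c : ℕ}
    (r s : Fin c → ℕ) (w : ∀ j, Fin (s j) → ℚ) : Prop :=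
  (∀ j, 1 ≤ r j ∧ ∀ i, 0 ≤ w j i ∧ w j i ≤ 1) ∧
  ∃ (K' : Type) (_ : Field K') (_ : Algebra ℂ K') (_ : Algebra K K') (_ : IsScalarTower ℂ K K')
    (_ : FiniteDimensional K K') (A : ∀ j, Fin (s j) → Fin (r j + 1) → K')
    (u : (Σ j, Fin (r j)) → K'),
    LcArr (upF K' L) A w ∧ IsTranscendenceBasis (upF K' L) u ∧
    LcHor L A u w {P | IsPrimeDivisor y P} (fun P => (Δ P : ℝ)) ∧
    Cor y n Δ (upF K' L) A u w

/-- the sum of the dimensions `r j` for which the sum of the weights is greater than `r j + 1` -/
def big {c : ℕ} (r s : Fin c → ℕ) (w : ∀ j, Fin (s j) → ℚ) : ℕ :=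
  ∑ j, if (r j + 1 : ℚ) < ∑ i, w j i then r j else 0

/-- The Campana-Peternell inequality: if `D` is an effective `ℚ`-divisor on `X` such that
`K_X + Δ - D` is pseudo-effective, then `κ(D) ≤ κ(K_X + Δ)`. -/
def CampanaPeternell (y : Fin (N + 1) → K) (n : ℕ) (Δ : Place ℂ K → ℚ) : Prop :=
  ∀ D : Place ℂ K → ℚ, Effective y D → PsefSub y n Δ D →
    ∀ h : ℕ, IitakaGe y D h → (h : WithBot ℕ) ≤ kodairaDim y n Δ

end

theorem exists_idx {c : ℕ} (r q : Fin c → ℕ) (w : ∀ j, Fin (q j) → ℚ) :
    ∃ κ : Fin (big r q w) → Σ j, Fin (r j), Function.Injective κ ∧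
      ∀ i, (r (κ i).1 + 1 : ℚ) < ∑ i', w (κ i).1 i' := by
  classical
  have h1 : Fintype.card {x : Σ j, Fin (r j) // (r x.1 + 1 : ℚ) < ∑ i, w x.1 i} = big r q w := by
    rw [Fintype.card_subtype, Finset.card_filter, Fintype.sum_sigma]
    refine Finset.sum_congr rfl fun j _ => ?_
    change ∑ _k : Fin (r j), (if (r j + 1 : ℚ) < ∑ i, w j i then 1 else 0) = _
    rw [Finset.sum_const, Finset.card_univ, Fintype.card_fin, smul_eq_mul, mul_ite, mul_one,
      mul_zero]
  let φ := Fintype.equivFinOfCardEq h1
  exact ⟨fun i => (φ.symm i : Σ j, Fin (r j)), fun a b hab => φ.symm.injective (Subtype.ext hab),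
    fun i => (φ.symm i).2⟩

theorem cp_of {K : Type} [Field K] [Algebra ℂ K] {N p c : ℕ} {y : Fin (N + 1) → K}
    {Δ : Place ℂ K → ℚ} {r s : Fin c → ℕ} {w : ∀ j, Fin (s j) → ℚ} {L : IntermediateField ℂ K}
    (hy : IsPair y (p + ∑ j, r j) Δ) {K' : Type} [Field K'] [Algebra ℂ K']
    [Algebra K K'] [IsScalarTower ℂ K K'] [FiniteDimensional K K']
    {A : ∀ j, Fin (s j) → Fin (r j + 1) → K'}
    {u : (Σ j, Fin (r j)) → K'} (hw : ∀ j, 1 ≤ r j ∧ ∀ i, 0 ≤ w j i ∧ w j i ≤ 1)
    (hA : LcArr (upF K' L) A w) (hu : IsTranscendenceBasis (upF K' L) u)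
    (hC : Cor y (p + ∑ j, r j) Δ (upF K' L) A u w)
    (hK : (∀ j, (r j + 1 : ℚ) ≤ ∑ i, w j i) → KodairaGe (p + ∑ j, r j) {P | IsPrimeDivisor y P}
      (fun P => (Δ P : ℝ)) (p + big r s w)) : CampanaPeternell y (p + ∑ j, r j) Δ := by
  intro D hD hps h hκ
  obtain ⟨h1, h2⟩ := lc_ab hy.1 hy.2.1 hy.2.2 hA.1 hu (fun j => (hw j).1)
    (fun j i => ((hw j).2 i).1) (fun j i => ((hw j).2 i).2) hC
  obtain ⟨h3, h4⟩ := lc_cp hy.1 hy.2.1 hy.2.2 hA.1 hu (fun j => (hw j).1)
    (fun j i => ((hw j).2 i).1) (fun j i => ((hw j).2 i).2) hC hD hps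
  have hna : p + ∑ j, r j = p + big r s w + ∑ j, (if ∑ i, w j i = r j + 1 then r j else 0) := by
    rw [add_assoc, big, ← Finset.sum_add_distrib]
    congr 1
    refine Finset.sum_congr rfl fun j _ => ?_
    rcases lt_or_eq_of_le (h3 j) with h5 | h5
    · rw [if_pos h5, if_neg h5.ne', add_zero]
    · rw [if_neg (not_lt.2 h5.symm.le), if_pos h5.symm, zero_add]
  rw [(h2 _ h3 hna (hK h3)).1]
  exact_mod_cast h4 _ h hna hκ

/-- **The Campana-Peternell inequality.** Let `(X, Δ)` be a projective pair of dimension `d + ∑ j, r j` with generic point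
`y`, `V` a linear system of dimension `d + k` on `X` whose rational map has an image `Y` of dimension
`d ≥ 1`; `φ i` nonzero members which span `V`, such that `V` does not split into a direct sum,
`R = d + k + 2`, or `R = d + k + 1` if there are `d + k + 3` different members, and `σ` a number with
`2 σ > R (k + 1) (k + 2)` for which the condition on the multiplicities holds. Let the fibres of `X`
over `Y` be as in `Fibres`. Then `κ(D) ≤ κ(K_X + Δ)` for all effective `ℚ`-divisors `D` on `X` such
that `K_X + Δ - D` is pseudo-effective. -/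
theorem result (d k q N c : ℕ) (hd : 1 ≤ d) (r s : Fin c → ℕ) (K : Type) [Field K] [Algebra ℂ K]
    (y : Fin (N + 1) → K) (Δ : Place ℂ K → ℚ) (hy : IsPair y (d + ∑ j, r j) Δ)
    (V : Submodule ℂ K) (hn : Module.finrank ℂ V = d + k + 1)
    (hV : Algebra.trdeg ℂ (ImageField V) = d)
    (φ : Fin q → K) (hφ0 : ∀ i, φ i ≠ 0) (hφ : Submodule.span ℂ (Set.range φ) = V)
    (hγ : ¬ Splits V φ)
    (R : ℕ) (hR : R = d + k + 2 ∨ (Different (d + k + 3) φ ∧ R = d + k + 1))
    (σ : ℚ) (hσ : (R * ((k + 1) * (k + 2)) : ℚ) < 2 * σ) (h : Multiplicities y Δ V φ σ)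
    (w : ∀ j, Fin (s j) → ℚ) (hF : Fibres y (d + ∑ j, r j) Δ (ImageField V) r s w) :
    CampanaPeternell y (d + ∑ j, r j) Δ := by
  classical
  obtain ⟨hw, K', _, _, _, _, _, A, u, hA, hu, hH, hC⟩ := hF
  refine cp_of hy hw hA hu hC fun hws => ?_
  obtain ⟨κ, hκ, hκs⟩ := exists_idx r s w
  have hKe : Algebra.trdeg (ImageField V) K = (∑ j, r j : ℕ) := by
    have h1 := _root_.trdeg_add_eq ℂ (ImageField V) (A := K)
    rw [hV, hy.2.1] at h1
    have h2 : ((d : ℕ) : Cardinal) + Algebra.trdeg (ImageField V) K =
        (d : ℕ) + ((∑ j, r j : ℕ) : Cardinal) := by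
      rw [h1]
      push_cast
      rfl
    exact Cardinal.eq_of_add_eq_add_left h2 (Cardinal.natCast_lt_aleph0)
  -- the boundary along the divisors which dominate the base
  let δ₂ : Place ℂ K → ℝ := fun P => if ∀ f ∈ ImageField V, f ≠ 0 → P.ord f = 0 then (Δ P : ℝ) else 0
  have hΔ0 : ∀ P, IsPrimeDivisor y P → (0 : ℝ) ≤ Δ P := fun P hP => by
    exact_mod_cast hy.2.2.1 P hP
  have hδ₂ : ∀ P ∈ {P | IsPrimeDivisor y P}, 0 ≤ δ₂ P := by
    intro P hP
    change (0 : ℝ) ≤ if ∀ f ∈ ImageField V, f ≠ 0 → P.ord f = 0 then (Δ P : ℝ) else 0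
    split_ifs
    · exact hΔ0 P hP
    · exact le_rfl
  have hH' : LcHor (ImageField V) A u w {P | IsPrimeDivisor y P} δ₂ := by
    intro P hP htr Q ε hQ c' e' ho
    have h1 := hH P hP htr Q ε hQ c' e' ho
    have h2 : δ₂ P = Δ P := if_pos htr
    rw [h2]
    exact h1
  obtain ⟨M, hM, θ, hθ, hne⟩ := lc_low (N := d + ∑ j, r j) hKe hA finSigmaFinEquiv hu
    (fun j i => ((hw j).2 i).1) hws hκ hκs hδ₂ hH'
  have hs' : (R : ℝ) * (((k : ℝ) + 1) * ((k : ℝ) + 2)) < 2 * (σ : ℝ) := by exact_mod_cast hσ
  refine Pool.Agent.Q298.EF.lin_one hd hy.2.1 hn hV hφ0 hφ hγ hR {P | IsPrimeDivisor y P}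
    (fun P => Δ P - δ₂ P) δ₂ (fun P => Δ P) ?_ ?_ hs' ?_ hM (θ := θ) hθ hne
  · intro P hP
    change (0 : ℝ) ≤ (Δ P : ℝ) - if ∀ f ∈ ImageField V, f ≠ 0 → P.ord f = 0 then (Δ P : ℝ) else 0
    split_ifs
    · rw [sub_self]
    · rw [sub_zero]
      exact hΔ0 P hP
  · intro P _
    rw [sub_add_cancel]
  · intro P hP _ a ha hb hc
    have h1 : δ₂ P = 0 := by
      refine if_neg fun htr => ?_
      obtain ⟨i, hi⟩ := hc
      obtain ⟨f, hf, hf0, hfa⟩ := hb
      have hfi : φ i ∈ V := hφ ▸ Submodule.subset_span ⟨i, rfl⟩
      have h2 : φ i / f ∈ ImageField V :=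
        IntermediateField.subset_adjoin ℂ _ ⟨φ i, hfi, f, hf, rfl⟩
      have h3 := htr _ h2 (div_ne_zero (hφ0 i) hf0)
      rw [P.ord_div (hφ0 i) hf0] at h3
      exact hi (by omega)
    obtain ⟨i, hi⟩ := h P hP a ha hb hc
    refine ⟨i, ?_⟩
    rw [h1, sub_zero]
    exact_mod_cast hi

end Pool.Agent.Results.MP_370cf3_ag.PowerfulLinearSystems
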